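import Pool.Agent.H38.UZ.TarZ

/-! ADD: new labels for towers. -/

set_option autoImplicit false
set_option linter.unusedVariables false

open Ordinal Order Set
open scoped ZFSet

namespace SE.UZ.H74ADD

open SF SE.UZ

/-- a constant function on a singleton is in the model -/
theorem single {M : V → Prop} (k : ZFm M) {x : V} (hx : M x) :
    M ({∅} : V) ∧ M (resS ({∅} : V) fun _ => x) ∧
      ∀ v ∈ ({∅} : V), app (resS ({∅} : V) fun _ => x) v = x := by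
  refine ⟨?_, ?_, fun v hv => app_resS hv⟩
  · exact (Tm.sing (f := fun _ _ => (∅ : V)) Tm.empty).1 M k (fun _ => x) (fun _ => hx)
  · have t : Tm ZFm (fun _ u => resS ({∅} : V) fun _ => u 0) :=
      Tm.resS (f := fun _ _ => ({∅} : V)) (g := fun _ u => u 1) (Tm.sing Tm.empty) (Tm.var 1)
    exact t.1 M k (fun _ => x) (fun _ => hx)

theorem pf_ADD (hPAS : T_PAS) (hW0 : T_W0) (hW0n : T_W0n) (hW1 : T_W1) (hPOC : T_POC)
    (hA : T_A) (hA1 : T_A1) (hZR : T_ZR) (hZW : T_ZW) (hBR : T_BR) (hBJ : T_BJ) (hBL : T_BL)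
    (hBK : T_BK) : T_ADD := by
  intro D κ b ham hok T hT Y hYn hY e he τ hτ u hu Z hZ
  have zfm : ZFm D.N := ham.ok.zfc.toZFCm.toZFm
  obtain ⟨-, -, hHN, -, -⟩ := hBJ D ham.ok
  obtain ⟨-, -, -, hR4, -⟩ := hBR D ham.ok
  obtain ⟨w1, w2, w3, w4, w5, w6⟩ := hW0 D κ b ham hok T hT
  obtain ⟨ξ0, hξ0, Y', hYn', hY', hYY⟩ := hW0n D κ b ham hok T hT Y hYn hY
  obtain ⟨o1, o2, o3⟩ := w4 ξ0 hξ0
  -- the new label
  obtain ⟨B', i, p1, p2, p3, p4, p5, p6, p7, p8, p9, p10, p11⟩ :=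
    hPOC D κ ham b hok (tK T ξ0) o1 Y' hYn' hY' e u
      (he.elim (fun h => Or.inl h) (fun h => Or.inr (Or.inl (by omega)))) τ hτ hu
      (Z ∪ b.ut κ T) (hR4 Z hZ _ w1).2.1
  have hel : e ≠ b.l := by
    have := hok.l3
    rcases he with h | h <;> omega
  -- the coding labels of the new object are old
  have hold : ∀ j ∈ b.u B', b.Co j → j ∈ b.u (tK T ξ0) := by
    intro j hj hc
    by_contra hn
    by_cases h1 : j = i
    · subst h1
      unfold BS.Co at hc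
      rw [p6] at hc
      exact hel (nS_inj.1 hc)
    · obtain ⟨⟨e', he', hk⟩, -⟩ := p11 j hj hn h1
      unfold BS.Co at hc
      rw [hk] at hc
      exact absurd (nS_inj.1 hc) he'.ne
  -- the world over the new object
  have hNr : D.N (b.rho D ξ0).toZFSet := ((hZR D κ b ham hok).2.2.2.2.2.1 ξ0 hξ0).2.2.1
  have hctx : Ctx D κ b (b.rho D ξ0) := ⟨ham, hok, hNr⟩
  obtain ⟨⟨z1, z2, z3, z4, z5, z6, z7, z8, z9, z10⟩, -⟩ := hZW D κ b ham hok _ _ _ o2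
  obtain ⟨s1, sB, aB⟩ := single zfm z8
  obtain ⟨-, sh, ah⟩ := single zfm z9
  obtain ⟨-, sT, aT⟩ := single zfm hT.n
  have hAF := hA1 D κ b (b.rho D ξ0) hctx ({∅} : V) _ _ B' s1 sB sh p2
    (fun v hv => by rw [aB v hv, ah v hv]; exact ⟨o2, p1⟩)
    (fun G hG v hv v' hv' X hX y e' he' => by rw [ah v hv, ah v' hv'])
    (fun j hj hc => ⟨∅, ZFSet.mem_singleton.2 rfl, by
      rw [aB ∅ (ZFSet.mem_singleton.2 rfl)]; exact hold j hj hc⟩)
  obtain ⟨hp, q1, q2⟩ := hA D κ b (b.rho D ξ0) hctx _ _ _ _ _ hAF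
  have q3 := q2 ∅ (ZFSet.mem_singleton.2 rfl)
  rw [aB ∅ (ZFSet.mem_singleton.2 rfl), ah ∅ (ZFSet.mem_singleton.2 rfl)] at q3
  obtain ⟨⟨y1, y2, y3, y4, y5, y6, y7, y8, y9, y10⟩, yy⟩ := hZW D κ b ham hok _ _ _ q1
  -- the data of the pass
  have hH1 : ({∅} : V) ∈ D.H :=
    (single ham.ok.zfH (x := ∅) ham.ok.zfH.mempty).1
  have hTT : b.TLe D κ T T := (hW1 D κ b ham hok).1 T hT
  have hPs : b.Pas D κ ({∅} : V) (resS ({∅} : V) fun _ => T) Z ξ0 ∅ (ZFSet.pair B' hp) := by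
    refine ⟨hH1, sT, hZ, ?_, ?_, ?_⟩
    · intro v hv
      rw [aT v hv]
      exact hT
    · intro v hv v' hv'
      rw [aT v hv, aT v' hv']
      refine ⟨T, hTT, hTT, ?_⟩
      ext z
      rw [ZFSet.mem_inter]
      exact ⟨fun h => ⟨h, h⟩, fun h => h.1⟩
    · intro _
      refine ⟨ZFSet.mem_singleton.2 rfl, ⟨?_, ?_⟩, ?_, ?_, ?_⟩
      · rw [fst_pair, snd_pair]
      · rw [fst_pair, snd_pair]
        exact q1
      · rw [aT ∅ (ZFSet.mem_singleton.2 rfl)]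
        unfold BS.Lr
        rw [fst_pair, snd_pair]
        exact q3
      · intro j hj hc
        rw [fst_pair] at hj
        exact hT.tm ξ0 hξ0 j (hold j hj hc) hc
      · intro j hj hn v hv
        rw [fst_pair] at hj
        rw [aT ∅ (ZFSet.mem_singleton.2 rfl)] at hn
        rw [aT v hv]
        intro h
        by_cases h1 : j = i
        · subst h1
          exact p5 (ZFSet.mem_union.2 (Or.inr h))
        · exact (p11 j hj hn h1).2 (ZFSet.mem_union.2 (Or.inr h))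
  obtain ⟨T', t1, t2, t3, t4⟩ := hPAS D κ b ham hok _ _ _ _ _ _ hPs
  have hTT' : b.TLe D κ T T' := by
    have := t2 ∅ (ZFSet.mem_singleton.2 rfl)
    rwa [aT ∅ (ZFSet.mem_singleton.2 rfl)] at this
  have hB' : b.u B' ⊆ b.ut κ T' := by
    have := t3 hξ0
    rwa [fst_pair] at this
  have hsub : b.ut κ T ⊆ b.ut κ T' := ((hW1 D κ b ham hok).2.2.2.1 T T' hTT').1
  obtain ⟨v1, v2, -, -, -, -⟩ := hW0 D κ b ham hok T' hTT'.t'
  have hN' : D.N (b.ut κ T') := hHN _ v1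
  have hiT : i ∉ b.ut κ T := fun h => p5 (ZFSet.mem_union.2 (Or.inr h))
  refine ⟨T', i, hTT', hB' p3, hiT, fun h => p5 (ZFSet.mem_union.2 (Or.inl h)), p6, p7, p8,
    p9.trans o3, ?_, ?_⟩
  · -- the value of the name
    intro G hG
    obtain ⟨g1, -, -, -, -, -, -, -, -, g10, -⟩ := yy (b.ut κ T') hN' v2.c hB' G hG
    obtain ⟨k1, -⟩ := hBK D ham.ok (b.ut κ T') G hN' v2.c hG
    have hTrT : Tr (b.ut κ T) := fun j hj => (w2.c j hj).2
    have e1 := (g10 i p3).1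
    have e2 := p10 _ g1
    obtain ⟨-, -, -, -, -, e3⟩ := k1 (b.u (tK T ξ0)) Y' z5 (o3.trans hsub) z6 hYn' hY'
    obtain ⟨-, -, -, -, -, e4⟩ := k1 (b.ut κ T) Y (hHN _ w1) hsub hTrT hYn hY
    have hle : b.u (tK T ξ0) ⊆ b.u B' := (hok.leO _ _ p1).2.2
    have g2 := ((hBL D ham.ok (b.ut κ T') G hN' v2.c hG).2 (b.ut κ T) (hHN _ w1) hsub hTrT).1
    have e5 := hYY _ g2
    rw [e3 _ o3, e4 _ (fun x hx => hx)] at e5
    rw [← e1, e2, e3 _ hle, e5]
  · intro k hk hkT hki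
    by_cases h : k ∈ b.u B'
    · obtain ⟨⟨e', he', hk'⟩, h2⟩ := p11 k h (fun h' => hkT (o3 h')) hki
      exact ⟨⟨e', by omega, hk'⟩, fun h' => h2 (ZFSet.mem_union.2 (Or.inl h'))⟩
    · obtain ⟨⟨e', he', hk'⟩, h2⟩ := t4 k hk (fun v hv => by rw [aT v hv]; exact hkT)
        (fun h' => h (by rw [fst_pair] at h'; exact h'.2))
      exact ⟨⟨e', by omega, hk'⟩, h2⟩

end SE.UZ.H74ADD
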