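import Pool.Agent.H75.UZ.TarKO

/-! KO5: enumerations of `hf` with a first element of our choice. -/

set_option autoImplicit false
set_option linter.unusedVariables false

open Ordinal Order Set
open scoped ZFSet

namespace SE.UZ.H74KO5

open SF CAA SE.UZ

theorem sU (n : ℕ) : (⋃₀ (nS (n + 1)) : ZFSet) = nS n := by
  ext z
  rw [ZFSet.mem_sUnion]
  constructor
  · rintro ⟨y, hy, hz⟩
    rw [nS_succ, ZFSet.mem_insert_iff] at hy
    rcases hy with rfl | hy
    · exact hz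
    · obtain ⟨k, rfl⟩ : ∃ k : ℕ, y = nS k := by
        have : y ∈ om := by
          have h1 : om.IsTransitive := by
            intro a ha b hb
            obtain ⟨l, rfl⟩ := mem_om.1 ha
            unfold nS at hb
            rw [Ordinal.mem_toZFSet_iff] at hb
            obtain ⟨β, hβ, rfl⟩ := hb
            rw [Ordinal.mem_toZFSet_iff]
            exact ⟨β, hβ.trans (Ordinal.natCast_lt_omega0 l), rfl⟩
          exact h1 _ (nS_mem_om n) hy
        exact mem_om.1 this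
      have hk := nS_mem_nS.1 hy
      unfold nS at hz ⊢
      rw [Ordinal.mem_toZFSet_iff] at hz ⊢
      obtain ⟨β, hβ, rfl⟩ := hz
      exact ⟨β, hβ.trans (by exact_mod_cast hk), rfl⟩
  · intro hz
    exact ⟨nS n, by rw [nS_succ]; exact ZFSet.mem_insert _ _, hz⟩

theorem pf_KO5 (hA : T_AA) (hG : T_KG) : T_KO5 := by
  intro W kz
  obtain ⟨j, hj, ij⟩ := hG.1 W kz
  have h0 : (∅ : V) ∈ hf := by
    have := hA.2.1 0
    rwa [nS_zero] at this
  rcases hA.2.2.2.2.2.2.2.2 W kz with h | ⟨e0, we, he⟩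
  · rw [h] at h0
    exact absurd h0 (ZFSet.notMem_empty _)
  have fv : ∀ n ∈ om, sel (n = ∅) (ZFSet.pair ∅ ∅) (app e0 (⋃₀ n : ZFSet)) ∈ hf := by
    intro n hn
    obtain ⟨m, rfl⟩ := mem_om.1 hn
    cases m with
    | zero =>
      rw [sel_pos nS_zero]
      exact hA.2.2.2.1 _ h0 _ h0
    | succ m =>
      rw [sel_neg (nS_ne_empty m), sU]
      exact app_mem he.1 (nS_mem_om m)
  refine ⟨resS om fun n => sel (n = ∅) (ZFSet.pair ∅ ∅) (app e0 (⋃₀ n : ZFSet)), j, ?_, hj, ?_⟩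
  · have t1 : Tm ZFm (fun _ u => resS om fun n => sel (n = ∅) (ZFSet.pair ∅ ∅)
        (app (u 0) (⋃₀ n : ZFSet))) :=
      Tm.resS (g := fun _ u => sel (u 0 = ∅) (ZFSet.pair ∅ ∅) (app (u 1) (⋃₀ (u 0) : ZFSet)))
        Tm.om (Tm.sel (Dfb.eq (Tm.var 0) Tm.empty) (Tm.pair Tm.empty Tm.empty)
          (Tm.app (Tm.var 1) (Tm.sUnion (Tm.var 0))))
    exact t1.1 W kz (cons e0 fun _ => ∅) (In.cons (fun _ => kz.mempty) we)
  · refine ⟨isFunc_resS om hf _ fv, ?_, ?_, ij⟩
    · intro h hh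
      obtain ⟨a, ha, hah⟩ := he.2 h hh
      obtain ⟨n, rfl⟩ := mem_om.1 ha
      refine ⟨n + 1, ?_⟩
      rw [app_resS (nS_mem_om (n + 1)), sel_neg (nS_ne_empty n), sU]
      exact app_eq (svl_of_isFunc he.1) hah
    · have := nS_mem_om 0
      rw [nS_zero] at this
      rw [app_resS this, sel_pos rfl]

end SE.UZ.H74KO5
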