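import Pool.Agent.H45.UZ.TarA

/-! QI2: transport of names under isomorphisms. -/

set_option autoImplicit false
set_option linter.unusedVariables false

open Ordinal Order Set
open scoped ZFSet

namespace SE.UZ.H74QI2

open SF SE.UZ

theorem mem_mvn {π Y z : V} : z ∈ mvn π Y ↔ ∃ w ∈ Y, ZFSet.pair (mv π (fst w)) (snd w) = z :=
  mem_imS

theorem pair_mem_mvn {π Y p b : V} (hY : ∀ w ∈ Y, w = ZFSet.pair (fst w) (snd w)) :
    ZFSet.pair p b ∈ mvn π Y ↔ ∃ q, ZFSet.pair q b ∈ Y ∧ mv π q = p := by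
  rw [mem_mvn]
  constructor
  · rintro ⟨w, hw, h⟩
    obtain ⟨h1, h2⟩ := ZFSet.pair_injective h
    refine ⟨fst w, ?_, h1⟩
    rw [← h2, ← hY w hw]
    exact hw
  · rintro ⟨q, hq, rfl⟩
    exact ⟨_, hq, by rw [fst_pair, snd_pair]⟩

theorem mvn_congr {π π' Y : V} (h : ∀ w ∈ Y, mv π (fst w) = mv π' (fst w)) :
    mvn π Y = mvn π' Y := by
  ext z
  rw [mem_mvn, mem_mvn]
  constructor
  · rintro ⟨w, hw, rfl⟩
    exact ⟨w, hw, by rw [h w hw]⟩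
  · rintro ⟨w, hw, rfl⟩
    exact ⟨w, hw, by rw [h w hw]⟩

theorem mvn_fix {π Y : V} (h : ∀ w ∈ Y, ZFSet.pair (mv π (fst w)) (snd w) = w) :
    mvn π Y = Y := by
  ext z
  rw [mem_mvn]
  constructor
  · rintro ⟨w, hw, rfl⟩
    rw [h w hw]
    exact hw
  · intro hz
    exact ⟨z, hz, h z hz⟩

theorem mvn_mvn_fix {π θ Y : V} (h : ∀ w ∈ Y, ZFSet.pair (mv θ (mv π (fst w))) (snd w) = w) :
    mvn θ (mvn π Y) = Y := by
  ext z
  rw [mem_mvn]
  constructor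
  · rintro ⟨w, hw, rfl⟩
    obtain ⟨u, hu, rfl⟩ := mem_mvn.1 hw
    rw [fst_pair, snd_pair, h u hu]
    exact hu
  · intro hz
    exact ⟨_, mem_mvn.2 ⟨z, hz, rfl⟩, by rw [fst_pair, snd_pair, h z hz]⟩

/-- transport of a full name by a bijection of the conditions which preserves the order -/
theorem nam {L s s' π Y : V} (h1 : ∀ q ∈ Pos L s, mv π q ∈ Pos L s')
    (h2 : ∀ q' ∈ Pos L s', ∃ q ∈ Pos L s, mv π q = q')
    (h3 : ∀ q ∈ Pos L s, ∀ q' ∈ Pos L s, (Le (mv π q') (mv π q) ↔ Le q' q) ∧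
      (mv π q' = mv π q → q' = q)) (hN : Nam L s Y) : Nam L s' (mvn π Y) := by
  have hY : ∀ w ∈ Y, w = ZFSet.pair (fst w) (snd w) := by
    intro w hw
    obtain ⟨q, hq, b, hb, rfl⟩ := hN.sub w hw
    rw [fst_pair, snd_pair]
  have hP : ∀ q b, ZFSet.pair q b ∈ Y → q ∈ Pos L s := by
    intro q b h
    obtain ⟨q', hq', b', hb', h4⟩ := hN.sub _ h
    obtain ⟨rfl, rfl⟩ := ZFSet.pair_inj.1 h4
    exact hq'
  -- the key equivalence
  have key : ∀ q ∈ Pos L s, ∀ b, ZFSet.pair (mv π q) b ∈ mvn π Y ↔ ZFSet.pair q b ∈ Y := by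
    intro q hq b
    rw [pair_mem_mvn hY]
    constructor
    · rintro ⟨q', hq', h⟩
      rw [← (h3 q hq q' (hP q' b hq')).2 h]
      exact hq'
    · intro h
      exact ⟨q, h, rfl⟩
  refine ⟨?_, ?_, ?_, ?_, ?_, ?_⟩
  · intro z hz
    obtain ⟨w, hw, rfl⟩ := mem_mvn.1 hz
    obtain ⟨q, hq, b, hb, rfl⟩ := hN.sub w hw
    exact ⟨mv π q, h1 q hq, b, hb, by rw [fst_pair, snd_pair]⟩
  · intro p b hp p' hp' hle
    obtain ⟨q, hq, rfl⟩ := (pair_mem_mvn hY).1 hp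
    obtain ⟨q', hq', rfl⟩ := h2 p' hp'
    have hq1 := hP q b hq
    rw [key q' hq']
    exact hN.mono q b hq q' hq' ((h3 q hq1 q' hq').1.1 hle)
  · intro n hn p hp
    obtain ⟨q, hq, rfl⟩ := h2 p hp
    obtain ⟨q', hq', hle, b, hb, hb'⟩ := hN.den n hn q hq
    exact ⟨mv π q', h1 q' hq', (h3 q hq q' hq').1.2 hle, b, hb, (key q' hq' b).2 hb'⟩
  · intro p b b' hb hb' hd
    obtain ⟨q, hq, rfl⟩ := (pair_mem_mvn hY).1 hb
    have hq1 := hP q b hq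
    exact hN.uni q b b' hq ((key q hq1 b').1 hb') hd
  · intro p b hb n hn
    obtain ⟨q, hq, rfl⟩ := (pair_mem_mvn hY).1 hb
    have hq1 := hP q b hq
    exact (key q hq1 _).2 (hN.ini q b hq n hn)
  · intro p hp b hb h
    obtain ⟨q, hq, rfl⟩ := h2 p hp
    rw [key q hq]
    refine hN.ful q hq b hb ?_
    intro q' hq' hle
    obtain ⟨p'', hp'', hle'', hb''⟩ := h (mv π q') (h1 q' hq') ((h3 q hq q' hq').1.2 hle)
    obtain ⟨q'', hq'', rfl⟩ := h2 p'' hp''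
    exact ⟨q'', hq'', (h3 q' hq' q'' hq'').1.1 hle'', (key q'' hq'' b).1 hb''⟩

theorem tm_mvn (hBBc : T_BBc) : Tm ZFm (fun _ v => mvn (v 0) (v 1)) := by
  obtain ⟨-, -, hmv, -⟩ := hBBc
  exact Tm.image (g := fun _ v => ZFSet.pair (mv (v 1) (fst (v 0))) (snd (v 0))) (Tm.var 1)
    (Tm.pair (Tm.at2 (F := fun _ x y => mv x y) hmv (Tm.var 1) (Tm.fst (Tm.var 0)))
      (Tm.snd (Tm.var 0)))

theorem pf_QI2 (hTBa : T_TBa) (hTBb : T_TBb) (hTBd : T_TBd) (hBC : T_BC) (hBBc : T_BBc) :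
    T_QI2 := by
  intro D hD l S π ρ ρ' hSl hI s hNs hs hTr
  obtain ⟨a1, a2, a3, a4, a5, a6⟩ := hTBa
  have hpos := hBC.2.2.2.1
  have hc := hI.c.c
  have hc' := hI.c'.c
  obtain ⟨b1, b2, b3, b4, b5, b6, b7, b8⟩ := hTBb D.L π ρ ρ' ∅ hc hc' hI.i.i
  obtain ⟨c1, c2, c3, c4, c5, c6⟩ := b8 s hs hTr
  obtain ⟨d1, d2, d3, d4, d5⟩ := hTBd π ρ ρ' hI.i.i.fn
  obtain ⟨e1, e2, e3, e4, e5, e6, e7, e8, e9⟩ := d5 b1 hI.i.i.onto
  have hrst : rst s (∅ : V) = ∅ := by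
    unfold rst
    ext z
    rw [ZFSet.mem_sep]
    exact ⟨fun h => h.1, fun h => absurd h (ZFSet.notMem_empty z)⟩
  have hmv0 : ∀ θ : V, mv θ ∅ = ∅ := by
    intro θ
    unfold mv
    ext z
    rw [mem_imS]
    constructor
    · rintro ⟨w, hw, -⟩
      exact absurd hw (ZFSet.notMem_empty w)
    · intro h
      exact absurd h (ZFSet.notMem_empty z)
  have hle0 : ∀ q : V, Le q ∅ := by
    intro q i hi
    obtain ⟨y, hy⟩ := mem_dm.1 hi
    exact absurd hy (ZFSet.notMem_empty _)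
  rw [hrst] at c4
  obtain ⟨f1, f2, f3, f4, f5, f6, f7, f8⟩ := hTBb D.L (rst s π) s (im π s) ∅ c1 c2 c4
  -- conditions of `s`
  have hP : ∀ q ∈ D.P s, FF q ∧ dm q ⊆ s := fun q hq =>
    ⟨((hpos D.L s q).1 hq).1, ((hpos D.L s q).1 hq).2.1⟩
  have hag : ∀ θ : V, (∀ i ∈ s, app θ i = app π i) → ∀ q ∈ D.P s, mv θ q = mv π q := by
    intro θ h q hq
    exact (a4 θ π s h).2 q (hP q hq).1 (hP q hq).2
  have hr := hag (rst s π) c6
  have hinv : ∀ q ∈ D.P s, mv (inv π) (mv π q) = q := fun q hq =>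
    (e7 q (hP q hq).1 ((hP q hq).2.trans hs)).2
  have hid : Idn π s → ∀ q ∈ D.P s, mv π q = q := fun h q hq =>
    (a5 π s h).2 q (hP q hq).1 (hP q hq).2
  have g1 : ∀ q ∈ D.P s, mv π q ∈ D.P (im π s) := by
    intro q hq
    rw [← hr q hq]
    exact (f5 q hq (hle0 q)).1
  have g2 : ∀ q' ∈ D.P (im π s), ∃ q ∈ D.P s, mv π q = q' := by
    intro q' hq'
    have : Le q' (mv (rst s π) ∅) := by
      rw [hmv0]
      exact hle0 q'
    obtain ⟨q, hq, -, h⟩ := f6 q' hq' this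
    exact ⟨q, hq, by rw [← hr q hq, h]⟩
  have g3 : ∀ q ∈ D.P s, ∀ q' ∈ D.P s, (Le (mv π q') (mv π q) ↔ Le q' q) ∧
      (mv π q' = mv π q → q' = q) := by
    intro q hq q' hq'
    exact (a1 π ρ b1 q (hP q hq).1 ((hP q hq).2.trans hs)).2.2.2.1 q' (hP q' hq').1
      ((hP q' hq').2.trans hs)
  constructor
  · intro Y hY hN
    have hY2 : ∀ w ∈ Y, fst w ∈ D.P s ∧ w = ZFSet.pair (fst w) (snd w) := by
      intro w hw
      obtain ⟨q, hq, b, hb, rfl⟩ := hN.sub w hw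
      rw [fst_pair, snd_pair]
      exact ⟨hq, rfl⟩
    refine ⟨?_, nam g1 g2 g3 hN, ?_, ?_, ?_, ?_⟩
    · exact (tm_mvn hBBc).1 D.N hD.zfc.toZFCm.toZFm (cons π fun _ => Y)
        (In.cons (fun _ => hY) hI.i.n)
    · refine mvn_mvn_fix fun w hw => ?_
      rw [hinv _ (hY2 w hw).1]
      exact (hY2 w hw).2.symm
    · exact mvn_congr fun w hw => hr _ (hY2 w hw).1
    · intro h
      refine mvn_fix fun w hw => ?_
      rw [hid h _ (hY2 w hw).1]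
      exact (hY2 w hw).2.symm
    · intro π' h
      exact mvn_congr fun w hw => hag π' h _ (hY2 w hw).1
  · intro q hq
    exact ⟨g1 q hq, hinv q hq, hr q hq, fun h => hid h q hq, fun π' h => hag π' h q hq⟩

end SE.UZ.H74QI2
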